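import Mathlib
import Pool.Agent.TH440.LD.Main

/-!
Predictors of low degree for parities, which are DNF formulas with few terms.
-/

set_option autoImplicit false

namespace Pool.Agent.TH440.LD

open Finset

/-- A DNF formula with `r` terms in `n` variables; the literal `(j, v)` of a term says `x j = v`. -/
abbrev DNF (r n : ℕ) : Type := Fin r → Finset (Fin n × Bool)

open Classical in
/-- The value of a DNF formula. -/
noncomputable def DNF.eval {r n : ℕ} (Φ : DNF r n) (x : Fin n → Bool) : Bool :=
  decide (∃ t, ∀ l ∈ Φ t, x l.1 = l.2)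

/-- A randomized predictor: `prob b x` is the probability of the prediction `true` for the point
`x` after the labelled sample `b`. -/
structure Predictor (n N : ℕ) where
  prob : Sample n N → (Fin n → Bool) → ℝ
  nonneg : ∀ b x, 0 ≤ prob b x
  le_one : ∀ b x, prob b x ≤ 1

/-- The mean of the prediction, with the values `1` for `true` and `-1` for `false`. -/
def Predictor.val {n N : ℕ} (L : Predictor n N) (b : Sample n N) (x : Fin n → Bool) : ℝ :=
  2 * L.prob b x - 1

/-- The mean of `G` over `N` uniform examples labelled by `f` and a uniform further point `x`. -/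
noncomputable def meanT {n N : ℕ} (f : (Fin n → Bool) → Bool)
    (G : Sample n N → (Fin n → Bool) → ℝ) : ℝ :=
  (∑ S : Fin N → Fin n → Bool, ∑ x, G (sample S fun i => f (S i)) x) / 2 ^ (N * n + n)

/-- The mean of `G` over uniform attributes and labels and a uniform further point `x`. -/
noncomputable def nullMeanT {n N : ℕ} (G : Sample n N → (Fin n → Bool) → ℝ) : ℝ :=
  (∑ b, ∑ x, G b x) / 2 ^ (N * (n + 1) + n)

/-- The probability that the prediction for a random point after `N` random examples of the target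
`f` is wrong. -/
noncomputable def Predictor.err {n N : ℕ} (L : Predictor n N) (f : (Fin n → Bool) → Bool) : ℝ :=
  meanT f (fun b x => if f x = true then 1 - L.prob b x else L.prob b x)

/-- `F` is a real polynomial of degree at most `D` in all bits of the sample and of the point to be
predicted (with the values `1` and `-1`). -/
def PolyInBitsT {n N : ℕ} (D : ℕ) (F : Sample n N → (Fin n → Bool) → ℝ) : Prop :=
  ∃ P : MvPolynomial ((Fin N × Option (Fin n)) ⊕ Fin n) ℝ, P.totalDegree ≤ D ∧
    ∀ b x, F b x = MvPolynomial.eval (Sum.elim (fun v => sgn (b v.1 v.2)) (fun j => sgn (x j))) P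

/-- `F` is a real polynomial of degree at most `d` in the labels, whose coefficients are arbitrary
functions of the attributes and of the point to be predicted. -/
def PolyInLabelsT {n N : ℕ} (d : ℕ) (F : Sample n N → (Fin n → Bool) → ℝ) : Prop :=
  ∀ (S : Fin N → Fin n → Bool) (x : Fin n → Bool),
    ∃ P : MvPolynomial (Fin N) ℝ, P.totalDegree ≤ d ∧
      ∀ Y, F (sample S Y) x = MvPolynomial.eval (fun i => sgn (Y i)) P

/-! ### parities -/

/-- the character of the set `T` -/
def chiS {n : ℕ} (T : Finset (Fin n)) (x : Fin n → Bool) : ℝ := ∏ j ∈ T, sgn (x j)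

/-- the parity function of the set `T`: an even number of the bits in `T` is `false` -/
def par {n : ℕ} (T : Finset (Fin n)) (x : Fin n → Bool) : Bool :=
  decide (Even (T.filter fun j => x j = false).card)

lemma sgn_par {n : ℕ} (T : Finset (Fin n)) (x : Fin n → Bool) : sgn (par T x) = chiS T x := by
  have h1 : chiS T x = (-1) ^ (T.filter fun j => x j = false).card := by
    unfold chiS
    rw [← Finset.prod_const, Finset.prod_filter]
    refine Finset.prod_congr rfl fun j _ => ?_
    cases x j <;> simp [sgn]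
  rw [h1]
  unfold par sgn
  rcases Nat.even_or_odd (T.filter fun j => x j = false).card with h | h
  · rw [decide_eq_true h, h.neg_one_pow, if_pos rfl]
  · rw [decide_eq_false (Nat.not_even_iff_odd.2 h), h.neg_one_pow]
    simp

lemma card_even_subsets {n : ℕ} (T : Finset (Fin n)) (hT : T.Nonempty) :
    (T.powerset.filter fun A => Even A.card).card ≤ 2 ^ (T.card - 1) := by
  classical
  obtain ⟨j, hj⟩ := hT
  rw [← Finset.card_erase_of_mem hj, ← Finset.card_powerset]
  refine Finset.card_le_card_of_injOn (fun A => A.erase j) ?_ ?_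
  · intro A hA
    rw [Finset.mem_coe, Finset.mem_filter, Finset.mem_powerset] at hA
    exact Finset.mem_coe.2 (Finset.mem_powerset.2 (Finset.erase_subset_erase _ hA.1))
  · intro A hA B hB hAB
    rw [Finset.mem_coe, Finset.mem_filter, Finset.mem_powerset] at hA hB
    simp only at hAB
    by_cases h1 : j ∈ A <;> by_cases h2 : j ∈ B
    · rw [← Finset.insert_erase h1, ← Finset.insert_erase h2, hAB]
    · exfalso
      have h3 := Finset.card_erase_add_one h1
      rw [hAB, Finset.erase_eq_of_notMem h2] at h3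
      obtain ⟨a, ha⟩ := hA.2
      obtain ⟨b, hb⟩ := hB.2
      omega
    · exfalso
      have h3 := Finset.card_erase_add_one h2
      rw [← hAB, Finset.erase_eq_of_notMem h1] at h3
      obtain ⟨a, ha⟩ := hA.2
      obtain ⟨b, hb⟩ := hB.2
      omega
    · rwa [Finset.erase_eq_of_notMem h1, Finset.erase_eq_of_notMem h2] at hAB

/-- the parity of `k` variables is a DNF formula with `2 ^ (k - 1)` terms -/
lemma exists_dnf {n k : ℕ} (T : Finset (Fin n)) (hk : 1 ≤ k) (hT : T.card = k) :
    ∃ Φ : DNF (2 ^ (k - 1)) n, ∀ x, Φ.eval x = par T x := by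
  classical
  have hne : T.Nonempty := Finset.card_pos.1 (by omega)
  obtain ⟨E, hE⟩ : ∃ E : Finset (Finset (Fin n)), E = T.powerset.filter fun A => Even A.card :=
    ⟨_, rfl⟩
  have hcard : Fintype.card E ≤ Fintype.card (Fin (2 ^ (k - 1))) := by
    rw [Fintype.card_coe, Fintype.card_fin, hE, ← hT]
    exact card_even_subsets T hne
  obtain ⟨g⟩ := Function.Embedding.nonempty_of_card_le hcard
  have hEne : Nonempty E := ⟨⟨∅, by rw [hE]; simp⟩⟩
  obtain ⟨ψ, hsurj⟩ : ∃ ψ : Fin (2 ^ (k - 1)) → E, Function.Surjective ψ :=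
    ⟨Function.invFun g, Function.invFun_surjective g.injective⟩
  refine ⟨fun t => T.image fun j => (j, decide (j ∉ (ψ t : Finset (Fin n)))), ?_⟩
  intro x
  unfold DNF.eval par
  rw [decide_eq_decide]
  constructor
  · rintro ⟨t, ht⟩
    obtain ⟨A, hA⟩ : ∃ A : Finset (Fin n), A = (ψ t : Finset (Fin n)) := ⟨_, rfl⟩
    have hAE : A ∈ E := by rw [hA]; exact (ψ t).2
    rw [hE, Finset.mem_filter, Finset.mem_powerset] at hAE
    have h1 : T.filter (fun j => x j = false) = A := by
      ext j
      rw [Finset.mem_filter]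
      constructor
      · rintro ⟨h2, h3⟩
        have h4 := ht (j, decide (j ∉ A)) (by
          rw [hA]
          exact Finset.mem_image_of_mem (fun j => (j, decide (j ∉ (ψ t : Finset (Fin n))))) h2)
        simp only at h4
        by_contra h5
        rw [h3, decide_eq_true h5] at h4
        exact absurd h4 (by simp)
      · intro h2
        refine ⟨hAE.1 h2, ?_⟩
        have h4 := ht (j, decide (j ∉ A)) (by
          rw [hA]
          exact Finset.mem_image_of_mem (fun j => (j, decide (j ∉ (ψ t : Finset (Fin n)))))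
            (hAE.1 h2))
        simp only at h4
        rw [h4]
        simp [h2]
    rw [h1]
    exact hAE.2
  · intro h
    obtain ⟨t, ht⟩ := hsurj ⟨T.filter (fun j => x j = false), by
      rw [hE, Finset.mem_filter, Finset.mem_powerset]
      exact ⟨Finset.filter_subset _ _, h⟩⟩
    refine ⟨t, ?_⟩
    intro l hl
    rw [Finset.mem_image] at hl
    obtain ⟨j, hj, rfl⟩ := hl
    simp only
    rw [ht]
    simp only [Finset.mem_filter, hj, true_and]
    cases x j <;> simp

/-! ### orthogonality -/

lemma orth {ι : Type} [Fintype ι] [DecidableEq ι] (V V' : Finset ι) :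
    ∑ b : ι → Bool, (∏ v ∈ V, sgn (b v)) * ∏ v ∈ V', sgn (b v) =
      if V = V' then (2 : ℝ) ^ Fintype.card ι else 0 := by
  have h1 : ∀ b : ι → Bool, (∏ v ∈ V, sgn (b v)) * ∏ v ∈ V', sgn (b v) =
      ∏ i, ((if i ∈ V then sgn (b i) else 1) * if i ∈ V' then sgn (b i) else 1) := by
    intro b
    rw [Finset.prod_mul_distrib, Finset.prod_ite_mem, Finset.prod_ite_mem, Finset.univ_inter,
      Finset.univ_inter]
  simp_rw [h1]
  have h2 := Finset.prod_univ_sum (fun _ : ι => (univ : Finset Bool))
    (fun (i : ι) (y : Bool) => (if i ∈ V then sgn y else 1) * if i ∈ V' then sgn y else 1)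
  rw [Fintype.piFinset_univ] at h2
  rw [← h2]
  split_ifs with h
  · subst h
    have h3 : ∀ i : ι, ∑ y : Bool, ((if i ∈ V then sgn y else 1) *
        if i ∈ V then sgn y else 1) = 2 := by
      intro i
      split_ifs
      · simp_rw [sgn_sq]; simp
      · simp
    simp_rw [h3]
    simp
  · have h3 : ∃ i, ¬ (i ∈ V ↔ i ∈ V') := by
      by_contra hcon
      push Not at hcon
      exact h (Finset.ext hcon)
    obtain ⟨i, hi⟩ := h3
    refine Finset.prod_eq_zero (Finset.mem_univ i) ?_
    by_cases h4 : i ∈ V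
    · have h5 : i ∉ V' := fun h5 => hi ⟨fun _ => h5, fun _ => h4⟩
      simp only [h4, h5, if_true, if_false, mul_one]
      exact sum_sgn
    · have h5 : i ∈ V' := by
        by_contra h5
        exact hi ⟨fun h => absurd h h4, fun h => absurd h h5⟩
      simp only [h4, h5, if_true, if_false, one_mul]
      exact sum_sgn

/-- the functions which matter -/
def W {n N : ℕ} (T : Finset (Fin n)) (I : Finset (Fin N)) (b : Sample n N) (x : Fin n → Bool) : ℝ :=
  (∏ i ∈ I, sgn (b i none)) * (∏ i ∈ I, chiS T fun j => b i (some j)) * chiS T x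

/-- splitting a sample in attributes and labels -/
lemma sum_sample {n N : ℕ} (F : Sample n N → ℝ) :
    ∑ b, F b = ∑ S : Fin N → Fin n → Bool, ∑ Y : Fin N → Bool, F (sample S Y) := by
  rw [← Fintype.sum_prod_type']
  symm
  refine Fintype.sum_bijective (fun q : (Fin N → Fin n → Bool) × (Fin N → Bool) =>
    sample q.1 q.2) ⟨?_, ?_⟩ _ _ (fun _ => rfl)
  · rintro ⟨S, Y⟩ ⟨S', Y'⟩ h
    simp only at h
    have h1 : ∀ i o, sample S Y i o = sample S' Y' i o := fun i o => by rw [h]
    refine Prod.ext ?_ ?_
    · funext i j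
      exact h1 i (some j)
    · funext i
      exact h1 i none
  · intro b
    refine ⟨(fun i j => b i (some j), fun i => b i none), ?_⟩
    funext i o
    cases o <;> rfl

lemma W_sample {n N : ℕ} (T : Finset (Fin n)) (I : Finset (Fin N)) (S : Fin N → Fin n → Bool)
    (Y : Fin N → Bool) (x : Fin n → Bool) :
    W T I (sample S Y) x = (∏ i ∈ I, sgn (Y i)) * (∏ i ∈ I, chiS T (S i)) * chiS T x := rfl

lemma chiS_sq {n : ℕ} (T : Finset (Fin n)) (x : Fin n → Bool) : chiS T x * chiS T x = 1 := by
  unfold chiS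
  rw [← Finset.prod_mul_distrib]
  exact Finset.prod_eq_one fun j _ => sgn_sq _

lemma W_orth {n N : ℕ} (T T' : Finset (Fin n)) (I I' : Finset (Fin N)) :
    nullMeanT (fun b x => W T I b x * W T' I' b x) = if (T, I) = (T', I') then 1 else 0 := by
  unfold nullMeanT
  have h1 : ∀ S : Fin N → Fin n → Bool, ∑ Y : Fin N → Bool, ∑ x : Fin n → Bool,
      W T I (sample S Y) x * W T' I' (sample S Y) x =
      ((∏ i ∈ I, chiS T (S i)) * ∏ i ∈ I', chiS T' (S i)) *
        ((∑ Y : Fin N → Bool, (∏ i ∈ I, sgn (Y i)) * ∏ i ∈ I', sgn (Y i)) *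
          ∑ x : Fin n → Bool, chiS T x * chiS T' x) := by
    intro S
    rw [Finset.sum_mul_sum, Finset.mul_sum]
    refine Finset.sum_congr rfl fun Y _ => ?_
    rw [Finset.mul_sum]
    refine Finset.sum_congr rfl fun x _ => ?_
    rw [W_sample, W_sample]
    ring
  rw [sum_sample (fun b => ∑ x, W T I b x * W T' I' b x)]
  simp_rw [h1]
  have h2 := orth (ι := Fin N) I I'
  have h3 := orth (ι := Fin n) T T'
  have h3' : ∑ x : Fin n → Bool, chiS T x * chiS T' x =
      if T = T' then (2 : ℝ) ^ Fintype.card (Fin n) else 0 := h3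
  rw [h2, h3', Fintype.card_fin, Fintype.card_fin]
  by_cases hT : T = T'
  · by_cases hI : I = I'
    · subst hT hI
      have h4 : ∀ S : Fin N → Fin n → Bool,
          (∏ i ∈ I, chiS T (S i)) * ∏ i ∈ I, chiS T (S i) = 1 := by
        intro S
        rw [← Finset.prod_mul_distrib]
        exact Finset.prod_eq_one fun i _ => chiS_sq _ _
      simp_rw [h4]
      simp only [if_true, one_mul, Finset.sum_const, Finset.card_univ, nsmul_eq_mul]
      have h5 : Fintype.card (Fin N → Fin n → Bool) = 2 ^ (N * n) := by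
        simp [Fintype.card_pi, ← pow_mul, mul_comm]
      rw [h5]
      push_cast
      rw [← pow_add, ← pow_add, show N * n + (N + n) = N * (n + 1) + n by ring]
      exact div_self (by positivity)
    · rw [if_neg (show ¬ (T, I) = (T', I') from fun h => hI (Prod.ext_iff.1 h).2), if_neg hI]
      simp
  · rw [if_neg (show ¬ (T, I) = (T', I') from fun h => hT (Prod.ext_iff.1 h).1), if_neg hT]
    simp

/-! ### the main inequality -/

/-- the number of samples and points -/
lemma card_null (n N : ℕ) :
    (Fintype.card (Sample n N × (Fin n → Bool)) : ℝ) = 2 ^ (N * (n + 1) + n) := by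
  have h0 : Fintype.card (Sample n N) = 2 ^ (N * (n + 1)) := by
    simp [Fintype.card_pi, Fintype.card_option, ← pow_mul, mul_comm]
  have h : Fintype.card (Sample n N × (Fin n → Bool)) = 2 ^ (N * (n + 1) + n) := by
    rw [Fintype.card_prod, h0, pow_add]
    simp
  rw [h]
  push_cast
  rfl

lemma nullMeanT_mono {n N : ℕ} {F G : Sample n N → (Fin n → Bool) → ℝ}
    (h : ∀ b x, F b x ≤ G b x) : nullMeanT F ≤ nullMeanT G := by
  unfold nullMeanT
  gcongr
  exact h _ _

lemma nullMeanT_nonneg {n N : ℕ} {F : Sample n N → (Fin n → Bool) → ℝ}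
    (h : ∀ b x, 0 ≤ F b x) : 0 ≤ nullMeanT F := by
  unfold nullMeanT
  exact div_nonneg (Finset.sum_nonneg fun b _ => Finset.sum_nonneg fun x _ => h b x)
    (by positivity)

lemma nullMeanT_add {n N : ℕ} (F G : Sample n N → (Fin n → Bool) → ℝ) :
    nullMeanT (fun b x => F b x + G b x) = nullMeanT F + nullMeanT G := by
  unfold nullMeanT
  simp_rw [Finset.sum_add_distrib]
  rw [add_div]

lemma nullMeanT_sum {n N : ℕ} {X : Type} (s : Finset X)
    (F : X → Sample n N → (Fin n → Bool) → ℝ) :
    nullMeanT (fun b x => ∑ t ∈ s, F t b x) = ∑ t ∈ s, nullMeanT (F t) := by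
  unfold nullMeanT
  rw [← Finset.sum_div]
  congr 1
  symm
  rw [Finset.sum_comm]
  refine Finset.sum_congr rfl fun b _ => ?_
  rw [Finset.sum_comm]

lemma nullMeanT_one {n N : ℕ} : nullMeanT (fun (_ : Sample n N) _ => (1 : ℝ)) = 1 := by
  unfold nullMeanT
  rw [← card_null, ← Fintype.sum_prod_type']
  simp

/-- Cauchy-Schwarz -/
lemma nullMeanT_cs {n N : ℕ} (F G : Sample n N → (Fin n → Bool) → ℝ) :
    nullMeanT (fun b x => F b x * G b x) ≤
      √(nullMeanT fun b x => F b x ^ 2) * √(nullMeanT fun b x => G b x ^ 2) := by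
  have h1 := Finset.sum_mul_sq_le_sq_mul_sq (univ : Finset (Sample n N × (Fin n → Bool)))
    (fun q => F q.1 q.2) (fun q => G q.1 q.2)
  obtain ⟨c, hc⟩ : ∃ c : ℝ, c = 2 ^ (N * (n + 1) + n) := ⟨_, rfl⟩
  have hc0 : 0 < c := by rw [hc]; positivity
  rw [← Real.sqrt_mul (nullMeanT_nonneg fun b x => sq_nonneg _)]
  apply Real.le_sqrt_of_sq_le
  unfold nullMeanT
  simp_rw [Fintype.sum_prod_type] at h1
  rw [← hc, div_pow, div_mul_div_comm, ← sq]
  exact div_le_div_of_nonneg_right h1 (by positivity)

/-- The transfer from the target to random labels. -/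
lemma transfer {n N : ℕ} (T : Finset (Fin n)) (F : Sample n N → (Fin n → Bool) → ℝ) :
    meanT (par T) (fun b x => F b x * sgn (par T x)) =
      ∑ I : Finset (Fin N), nullMeanT (fun b x => F b x * W T I b x) := by
  classical
  rw [← nullMeanT_sum]
  unfold meanT nullMeanT
  have h1 : ∀ (S : Fin N → Fin n → Bool) (Y : Fin N → Bool) (x : Fin n → Bool),
      ∑ I : Finset (Fin N), F (sample S Y) x * W T I (sample S Y) x =
        if Y = (fun i => par T (S i)) then
          2 ^ N * (F (sample S fun i => par T (S i)) x * sgn (par T x)) else 0 := by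
    intro S Y x
    have h2 : ∑ I : Finset (Fin N), F (sample S Y) x * W T I (sample S Y) x =
        F (sample S Y) x * chiS T x * ∏ i, (1 + sgn (Y i) * sgn (par T (S i))) := by
      rw [Finset.prod_one_add, Finset.powerset_univ, Finset.mul_sum]
      refine Finset.sum_congr rfl fun I _ => ?_
      rw [W_sample, Finset.prod_mul_distrib]
      simp_rw [sgn_par]
      ring
    rw [h2]
    simp_rw [one_add_sgn]
    split_ifs with h
    · subst h
      simp only [if_true, Finset.prod_const, Finset.card_univ, Fintype.card_fin, sgn_par]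
      ring
    · obtain ⟨i, hi⟩ := Function.ne_iff.1 h
      rw [Finset.prod_eq_zero (Finset.mem_univ i) (if_neg hi), mul_zero]
  rw [sum_sample (fun b => ∑ x, ∑ I : Finset (Fin N), F b x * W T I b x)]
  simp_rw [h1]
  have h3 : ∀ S : Fin N → Fin n → Bool, ∑ Y : Fin N → Bool, ∑ x : Fin n → Bool,
      (if Y = (fun i => par T (S i)) then
          2 ^ N * (F (sample S fun i => par T (S i)) x * sgn (par T x)) else 0) =
      2 ^ N * ∑ x, F (sample S fun i => par T (S i)) x * sgn (par T x) := by
    intro S
    rw [Finset.sum_comm, Finset.mul_sum]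
    refine Finset.sum_congr rfl fun x _ => ?_
    rw [Finset.sum_ite_eq' univ, if_pos (Finset.mem_univ _)]
  simp_rw [h3]
  rw [← Finset.mul_sum, div_eq_div_iff (by positivity) (by positivity)]
  ring

/-! ### polynomials of low degree -/

lemma van_bitsT {n N D : ℕ} {F : Sample n N → (Fin n → Bool) → ℝ} (hF : PolyInBitsT D F)
    (T : Finset (Fin n)) (I : Finset (Fin N)) (h : D < I.card * (T.card + 1) + T.card) :
    nullMeanT (fun b x => F b x * W T I b x) = 0 := by
  obtain ⟨P, hP, hPF⟩ := hF
  unfold nullMeanT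
  rw [div_eq_zero_iff]
  left
  obtain ⟨V, hV⟩ : ∃ V : Finset ((Fin N × Option (Fin n)) ⊕ Fin n),
    V = (I ×ˢ Finset.insertNone T).disjSum T := ⟨_, rfl⟩
  have hcard : V.card = I.card * (T.card + 1) + T.card := by
    rw [hV, Finset.card_disjSum, Finset.card_product, Finset.card_insertNone]
  have h1 := van P hP V (by omega)
  rw [← h1, ← Fintype.sum_prod_type' (fun (b : Sample n N) (x : Fin n → Bool) =>
    F b x * W T I b x)]
  symm
  refine Fintype.sum_equiv ((Equiv.sumArrowEquivProdArrow _ _ _).trans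
    ((Equiv.curry (Fin N) (Option (Fin n)) Bool).prodCongr (Equiv.refl (Fin n → Bool)))) _ _ ?_
  intro β
  rw [hPF]
  congr 1
  · have e : (Sum.elim (fun v : Fin N × Option (Fin n) =>
        sgn ((((Equiv.sumArrowEquivProdArrow _ _ _).trans
          ((Equiv.curry (Fin N) (Option (Fin n)) Bool).prodCongr
            (Equiv.refl (Fin n → Bool)))) β).1 v.1 v.2))
        (fun j => sgn ((((Equiv.sumArrowEquivProdArrow _ _ _).trans
          ((Equiv.curry (Fin N) (Option (Fin n)) Bool).prodCongr
            (Equiv.refl (Fin n → Bool)))) β).2 j))) = fun v => sgn (β v) := by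
      funext v
      cases v <;> rfl
    rw [← e]
  · rw [hV, Finset.prod_disjSum, Finset.prod_product]
    simp_rw [Finset.prod_insertNone]
    rw [Finset.prod_mul_distrib]
    rfl

lemma van_labelsT {n N d : ℕ} {F : Sample n N → (Fin n → Bool) → ℝ} (hF : PolyInLabelsT d F)
    (T : Finset (Fin n)) (I : Finset (Fin N)) (h : d < I.card) :
    nullMeanT (fun b x => F b x * W T I b x) = 0 := by
  unfold nullMeanT
  rw [div_eq_zero_iff]
  left
  rw [sum_sample (fun b => ∑ x, F b x * W T I b x)]
  refine Finset.sum_eq_zero fun S _ => ?_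
  rw [Finset.sum_comm]
  refine Finset.sum_eq_zero fun x _ => ?_
  obtain ⟨P, hP, hPF⟩ := hF S x
  have h1 := van P hP I h
  simp_rw [W_sample, hPF]
  calc _ = ∑ Y : Fin N → Bool, (MvPolynomial.eval (fun i => sgn (Y i)) P * ∏ i ∈ I, sgn (Y i)) *
        ((∏ i ∈ I, chiS T (S i)) * chiS T x) :=
        Finset.sum_congr rfl fun Y _ => by ring
    _ = 0 := by rw [← Finset.sum_mul, h1, zero_mul]

lemma meanT_mono {n N : ℕ} (f : (Fin n → Bool) → Bool) {F G : Sample n N → (Fin n → Bool) → ℝ}
    (h : ∀ b x, F b x ≤ G b x) : meanT f F ≤ meanT f G := by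
  unfold meanT
  gcongr
  exact h _ _

lemma meanT_add {n N : ℕ} (f : (Fin n → Bool) → Bool) (F G : Sample n N → (Fin n → Bool) → ℝ) :
    meanT f (fun b x => F b x + G b x) = meanT f F + meanT f G := by
  unfold meanT
  simp_rw [Finset.sum_add_distrib]
  rw [add_div]

lemma err_eq {n N : ℕ} (L : Predictor n N) (f : (Fin n → Bool) → Bool) :
    L.err f = 1 / 2 - meanT f (fun b x => L.val b x * sgn (f x)) / 2 := by
  unfold Predictor.err meanT Predictor.val
  have h1 : ∀ (S : Fin N → Fin n → Bool) (x : Fin n → Bool),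
      (if f x = true then 1 - L.prob (sample S fun i => f (S i)) x
        else L.prob (sample S fun i => f (S i)) x) =
      1 / 2 - (2 * L.prob (sample S fun i => f (S i)) x - 1) * sgn (f x) / 2 := by
    intro S x
    cases f x <;> simp [sgn] <;> ring
  simp_rw [h1, Finset.sum_sub_distrib]
  rw [sub_div]
  congr 1
  · simp only [Finset.sum_const, Finset.card_univ, nsmul_eq_mul]
    have h5 : Fintype.card (Fin N → Fin n → Bool) = 2 ^ (N * n) := by
      simp [Fintype.card_pi, ← pow_mul, mul_comm]
    have h6 : Fintype.card (Fin n → Bool) = 2 ^ n := by simp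
    rw [h5, h6]
    push_cast
    rw [← mul_assoc, ← pow_add]
    field_simp
  · simp_rw [← Finset.sum_div]
    ring

/-- The averaging argument. -/
lemma averageT {n k N : ℕ} (hkn : k ≤ n) (L : Predictor n N)
    (p : Sample n N → (Fin n → Bool) → ℝ) (J : Finset (Finset (Fin N)))
    (hJ : ∀ T : Finset (Fin n), T.card = k → ∀ I, I ∉ J →
      nullMeanT (fun b x => p b x * W T I b x) = 0) {η₀ η : ℝ} (hη₀ : 0 ≤ η₀)
    (h0 : nullMeanT (fun b x => (p b x - L.val b x) ^ 2) ≤ η₀ ^ 2)
    (h1 : ∀ T : Finset (Fin n), T.card = k →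
      meanT (par T) (fun b x => |p b x - L.val b x|) ≤ η) :
    ∃ T : Finset (Fin n), T.card = k ∧
      1 / 2 - (η + (1 + η₀) * √(J.card / n.choose k)) / 2 ≤ L.err (par T) := by
  classical
  obtain ⟨TT, hTT⟩ : ∃ TT : Finset (Finset (Fin n)), TT = Finset.powersetCard k univ := ⟨_, rfl⟩
  have hTTc : TT.card = n.choose k := by
    rw [hTT, Finset.card_powersetCard, Finset.card_univ, Fintype.card_fin]
  have hmem : ∀ T, T ∈ TT ↔ T.card = k := by
    intro T
    rw [hTT, Finset.mem_powersetCard]
    exact ⟨fun h => h.2, fun h => ⟨Finset.subset_univ _, h⟩⟩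
  have hC0 : (0 : ℝ) < n.choose k := by exact_mod_cast Nat.choose_pos hkn
  -- the sum of the functions `W`
  obtain ⟨G, hG⟩ : ∃ G : Sample n N → (Fin n → Bool) → ℝ,
    G = fun b x => ∑ q ∈ TT ×ˢ J, W q.1 q.2 b x := ⟨_, rfl⟩
  have hG2 : nullMeanT (fun b x => G b x ^ 2) = n.choose k * J.card := by
    have e1 : (fun b x => G b x ^ 2) = fun b x => ∑ q ∈ TT ×ˢ J, ∑ q' ∈ TT ×ˢ J,
        W q.1 q.2 b x * W q'.1 q'.2 b x := by
      funext b x
      rw [hG, sq, Finset.sum_mul_sum]
    rw [e1, nullMeanT_sum]
    have e2 : ∀ q ∈ TT ×ˢ J, nullMeanT (fun b x => ∑ q' ∈ TT ×ˢ J,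
        W q.1 q.2 b x * W q'.1 q'.2 b x) = 1 := by
      intro q hq
      rw [nullMeanT_sum]
      simp_rw [W_orth]
      rw [Finset.sum_eq_single q]
      · simp
      · rintro q' _ hne
        exact if_neg (fun h => hne (Prod.ext_iff.2 (Prod.ext_iff.1 h)).symm)
      · exact fun h => absurd hq h
    rw [Finset.sum_congr rfl e2, Finset.sum_const, nsmul_eq_mul, mul_one, Finset.card_product,
      hTTc]
    push_cast
    rfl
  have hsum : ∑ T ∈ TT, meanT (par T) (fun b x => p b x * sgn (par T x)) =
      nullMeanT (fun b x => p b x * G b x) := by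
    have e1 : (fun b x => p b x * G b x) = fun b x => ∑ q ∈ TT ×ˢ J,
        p b x * W q.1 q.2 b x := by
      funext b x
      rw [hG, Finset.mul_sum]
    rw [e1, nullMeanT_sum, Finset.sum_product]
    refine Finset.sum_congr rfl fun T hT => ?_
    rw [transfer]
    symm
    refine Finset.sum_subset (Finset.subset_univ _) fun I _ hI => ?_
    exact hJ T ((hmem T).1 hT) I hI
  have hbound : nullMeanT (fun b x => p b x * G b x) ≤
      (1 + η₀) * √(n.choose k * J.card) := by
    have e1 : (fun b x => p b x * G b x) = fun b x =>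
        (p b x - L.val b x) * G b x + L.val b x * G b x := by
      funext b x
      ring
    rw [e1, nullMeanT_add]
    have e2 := nullMeanT_cs (fun b x => p b x - L.val b x) G
    have e3 := nullMeanT_cs (fun b x => L.val b x) G
    rw [hG2] at e2 e3
    have e4 : √(nullMeanT fun b x => (p b x - L.val b x) ^ 2) ≤ η₀ :=
      (Real.sqrt_le_sqrt h0).trans (le_of_eq (Real.sqrt_sq hη₀))
    have e5 : √(nullMeanT fun b x => L.val b x ^ 2) ≤ 1 := by
      refine (Real.sqrt_le_sqrt ((nullMeanT_mono fun b x => ?_).trans_eq nullMeanT_one)).trans_eq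
        Real.sqrt_one
      have := L.nonneg b x
      have := L.le_one b x
      unfold Predictor.val
      nlinarith
    have e6 : 0 ≤ √((n.choose k : ℝ) * J.card) := Real.sqrt_nonneg _
    have e7 := mul_le_mul_of_nonneg_right e4 e6
    have e8 := mul_le_mul_of_nonneg_right e5 e6
    linarith
  have hval : ∀ T ∈ TT, meanT (par T) (fun b x => L.val b x * sgn (par T x)) ≤
      η + meanT (par T) (fun b x => p b x * sgn (par T x)) := by
    intro T hT
    refine le_trans ?_ (add_le_add_left (h1 T ((hmem T).1 hT)) _)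
    rw [← meanT_add]
    refine meanT_mono _ fun b x => ?_
    have e1 : |sgn (par T x)| = 1 := abs_sgn _
    have e2 : (L.val b x - p b x) * sgn (par T x) ≤ |p b x - L.val b x| := by
      refine (le_abs_self _).trans ?_
      rw [abs_mul, e1, mul_one, abs_sub_comm]
    linarith
  by_contra hcon
  push Not at hcon
  have h2 : ∀ T ∈ TT, η + (1 + η₀) * √(J.card / n.choose k) <
      meanT (par T) (fun b x => L.val b x * sgn (par T x)) := by
    intro T hT
    have e1 := hcon T ((hmem T).1 hT)
    rw [err_eq] at e1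
    linarith
  have hne : TT.Nonempty := Finset.card_pos.1 (by rw [hTTc]; exact Nat.choose_pos hkn)
  have h3 := Finset.sum_lt_sum_of_nonempty hne h2
  rw [Finset.sum_const, nsmul_eq_mul, hTTc] at h3
  have h4 := Finset.sum_le_sum hval
  rw [Finset.sum_add_distrib, hsum, Finset.sum_const, nsmul_eq_mul, hTTc] at h4
  have h5 : (n.choose k : ℝ) * √(J.card / n.choose k) = √(n.choose k * J.card) := by
    rw [Real.sqrt_div' _ hC0.le, Real.sqrt_mul hC0.le]
    have e1 := Real.mul_self_sqrt hC0.le
    have e2 : √(n.choose k : ℝ) ≠ 0 := (Real.sqrt_pos.2 hC0).ne'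
    field_simp
    rw [sq, e1]
    ring
  nlinarith

end Pool.Agent.TH440.LD
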